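import Pool.Agent.H88.MCR.Stmts

set_option autoImplicit false

namespace Pool.MCR

namespace FLPAux

/-- the mirror image of an arc -/
def fa {L : Type} (A : Arc L) : Arc L := (!A.1, A.2.1, A.2.2)

theorem fa_inj {L : Type} (A B : Arc L) (h : fa A = fa B) : A = B := by
  obtain ⟨s, a, b⟩ := A
  obtain ⟨t, c, d⟩ := B
  unfold fa at h
  simp only [Prod.mk.injEq, Bool.not_inj_iff] at h
  obtain ⟨rfl, rfl, rfl⟩ := h
  rfl

variable {L : Type} [LinearOrder L]

theorem cross_iff (A B : Arc L) : Cross (fa A) (fa B) ↔ Cross A B := by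
  unfold Cross fa
  simp only [Bool.not_inj_iff]

theorem nc_map (α β : List (Arc L)) (h : NC α β) : NC (α.map fa) (β.map fa) := by
  intro A hA B hB
  obtain ⟨A', hA', rfl⟩ := List.mem_map.1 hA
  obtain ⟨B', hB', rfl⟩ := List.mem_map.1 hB
  rw [cross_iff]
  exact h A' hA' B' hB'

theorem am_map (α β : List (Arc L)) (h : AM α β) : AM (α.map fa) (β.map fa) := by
  intro A hA B hB A1 hA1 B1 hB1 h1 h2
  obtain ⟨A', hA', rfl⟩ := List.mem_map.1 hA
  obtain ⟨B', hB', rfl⟩ := List.mem_map.1 hB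
  obtain ⟨A1', hA1', rfl⟩ := List.mem_map.1 hA1
  obtain ⟨B1', hB1', rfl⟩ := List.mem_map.1 hB1
  rw [cross_iff] at h1 h2
  obtain ⟨e1, e2⟩ := h A' hA' B' hB' A1' hA1' B1' hB1' h1 h2
  exact ⟨by rw [e1], by rw [e2]⟩

theorem ex_map (α β : List (Arc L)) (h : EX α β) : EX (α.map fa) (β.map fa) := by
  obtain ⟨A, hA, B, hB, h1⟩ := h
  exact ⟨fa A, List.mem_map_of_mem hA, fa B, List.mem_map_of_mem hB, (cross_iff A B).2 h1⟩

end FLPAux

open FLPAux

theorem flp_thm (h1 : ARM_S) : FLP_S := by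
  intro L _ n D T hD hT
  have key : ∀ x y, (flip D).A x y = (D.A x y).map fa := by
    intro x y
    exact (h1 L L id (D.P x y) (D.S x y)).2
  refine ⟨?_, ?_⟩
  · refine ⟨hD.pos_inj, hD.notin, hD.nodup, hD.disj, hD.symE, ?_, ?_, ?_, ?_⟩
    · intro x hx y hy hxy s a b h
      rw [key] at h ⊢
      obtain ⟨⟨t, c, d⟩, hA, hE⟩ := List.mem_map.1 h
      unfold fa at hE
      simp only [Prod.mk.injEq] at hE
      obtain ⟨rfl, rfl, rfl⟩ := hE
      exact List.mem_map.2 ⟨(t, d, c), hD.symA x hx y hy hxy t c d hA, rfl⟩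
    · intro x hx y hy z hz a b c
      rw [key, key]
      exact nc_map _ _ (hD.adj x hx y hy z hz a b c)
    · intro x hx y hy a
      rw [key]
      exact nc_map _ _ (hD.self x hx y hy a)
    · intro x hx y hy z hz t ht a b c d e f
      rw [key, key]
      exact am_map _ _ (hD.two x hx y hy z hz t ht a b c d e f)
  · intro x hx y hy z hz t ht a b c d e f g h
    rw [key, key]
    exact ex_map _ _ (hT x hx y hy z hz t ht a b c d e f g h)

end Pool.MCR
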