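import Pool.Agent.H88.MCR.Stmts

set_option autoImplicit false

namespace Pool.MCR

theorem prj_lt {L : Type} [LinearOrder L] (x y : L) (m n : ℤ) (h : x ≠ y) :
    lp x m < lp y n ↔ x < y := by
  unfold lp
  rw [Prod.Lex.toLex_lt_toLex]
  constructor
  · rintro (h1 | ⟨h1, _⟩)
    · exact h1
    · exact absurd h1 h
  · exact fun h1 => Or.inl h1

theorem prj_thm : PRJ_S := by
  intro L _ a b c d α β γ δ h1 h2 h3 h4
  unfold Inter Btw Out
  rw [prj_lt a c α γ h1, prj_lt c b γ β h3.symm, prj_lt b c β γ h3, prj_lt c a γ α h1.symm,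
    prj_lt d a δ α h2.symm, prj_lt d b δ β h4.symm, prj_lt a d α δ h2, prj_lt b d β δ h4]

end Pool.MCR
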